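import Pool.Agent.SM.Defs
import Pool.Agent.Helper41.CD.Gate

/-!
# Superpositions of smooth functions: approximation by polynomials at a point

Row B.  `Apx N c f P`: `f` is equal to the polynomial `P` up to terms of order greater than `N`.
-/

set_option autoImplicit false

namespace Pool.SM

open MvPolynomial Filter Topology Asymptotics Finset
open Pool.Agent.Helper41.CD

section Apx

variable {σ : Type} [Fintype σ] {N : ℕ} {c : σ → ℝ}

theorem eval_diff (P : MvPolynomial σ ℝ) : Differentiable ℝ fun x : σ → ℝ => eval x P := by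
  induction P using MvPolynomial.induction_on with
  | C a => simp
  | add p q hp hq =>
    have h1 : (fun x : σ → ℝ => eval x (p + q)) = fun x => eval x p + eval x q := by
      funext x
      exact map_add _ _ _
    rw [h1]
    exact hp.fun_add hq
  | mul_X p l hp =>
    have h1 : (fun x : σ → ℝ => eval x (p * X l)) = fun x => eval x p * x l := by
      funext x
      rw [map_mul, eval_X]
    rw [h1]
    exact hp.fun_mul (differentiable_apply l)

omit [Fintype σ] in
theorem eval_bdd (P : MvPolynomial σ ℝ) : (fun x => eval x P) =O[𝓝 c] fun _ => (1 : ℝ) :=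
  (MvPolynomial.continuous_eval P).continuousAt.isBigO_one ℝ

theorem norm_pow_bdd (n : ℕ) : (fun x : σ → ℝ => ‖x - c‖ ^ n) =O[𝓝 c] fun _ => (1 : ℝ) := by
  have h : Continuous fun x : σ → ℝ => ‖x - c‖ ^ n := by fun_prop
  exact h.continuousAt.isBigO_one ℝ

/-- a function with an approximation is bounded near the point -/
theorem Apx.bdd {f : (σ → ℝ) → ℝ} {P : MvPolynomial σ ℝ} (h : Apx N c f P) :
    f =O[𝓝 c] fun _ => (1 : ℝ) := by
  have h1 := (h.trans (norm_pow_bdd (N + 1))).add (eval_bdd (c := c) P)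
  refine h1.congr_left fun x => ?_
  ring

theorem Apx.poly (P : MvPolynomial σ ℝ) : Apx N c (fun x => eval x P) P := by
  unfold Apx
  simp only [sub_self]
  exact isBigO_zero _ _

theorem Apx.add {f g : (σ → ℝ) → ℝ} {P Q : MvPolynomial σ ℝ} (hf : Apx N c f P)
    (hg : Apx N c g Q) : Apx N c (fun x => f x + g x) (P + Q) := by
  refine (IsBigO.add hf hg).congr_left fun x => ?_
  rw [map_add]
  ring

theorem Apx.mul {f g : (σ → ℝ) → ℝ} {P Q : MvPolynomial σ ℝ} (hf : Apx N c f P)
    (hg : Apx N c g Q) : Apx N c (fun x => f x * g x) (P * Q) := by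
  have h1 : (fun x => f x * (g x - eval x Q)) =O[𝓝 c] fun x => (1 : ℝ) * ‖x - c‖ ^ (N + 1) :=
    hf.bdd.mul hg
  have h2 : (fun x => (f x - eval x P) * eval x Q) =O[𝓝 c]
      fun x => ‖x - c‖ ^ (N + 1) * (1 : ℝ) := IsBigO.mul hf (eval_bdd Q)
  simp only [one_mul] at h1
  simp only [mul_one] at h2
  refine (h1.add h2).congr_left fun x => ?_
  rw [map_mul]
  ring

theorem Apx.sum {ι : Type} (s : Finset ι) (f : ι → (σ → ℝ) → ℝ) (P : ι → MvPolynomial σ ℝ)
    (h : ∀ i ∈ s, Apx N c (f i) (P i)) : Apx N c (fun x => ∑ i ∈ s, f i x) (∑ i ∈ s, P i) := by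
  classical
  induction s using Finset.induction_on with
  | empty =>
    have := Apx.poly (N := N) (c := c) (0 : MvPolynomial σ ℝ)
    simpa using this
  | insert a s ha ih =>
    simp only [sum_insert ha]
    exact (h a (mem_insert_self _ _)).add (ih fun i hi => h i (mem_insert_of_mem hi))

theorem Apx.prod {ι : Type} (s : Finset ι) (f : ι → (σ → ℝ) → ℝ) (P : ι → MvPolynomial σ ℝ)
    (h : ∀ i ∈ s, Apx N c (f i) (P i)) : Apx N c (fun x => ∏ i ∈ s, f i x) (∏ i ∈ s, P i) := by
  classical
  induction s using Finset.induction_on with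
  | empty =>
    have := Apx.poly (N := N) (c := c) (1 : MvPolynomial σ ℝ)
    simpa using this
  | insert a s ha ih =>
    simp only [prod_insert ha]
    exact (h a (mem_insert_self _ _)).mul (ih fun i hi => h i (mem_insert_of_mem hi))

theorem apx_sum_prod {T S : ℕ} (c : σ → ℝ)
    (f : Fin T → Fin S → (σ → ℝ) → ℝ) (P : Fin T → Fin S → MvPolynomial σ ℝ)
    (h : ∀ i j, Apx N c (f i j) (P i j)) :
    Apx N c (fun x => ∑ i, ∏ j, f i j x) (∑ i, ∏ j, P i j) :=
  Apx.sum _ _ _ fun i _ => Apx.prod _ _ _ fun j _ => h i j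

/-- the error is small near the point -/
theorem Apx.tendsto {f : (σ → ℝ) → ℝ} {P : MvPolynomial σ ℝ} (h : Apx N c f P) :
    Tendsto f (𝓝 c) (𝓝 (eval c P)) := by
  have h1 : Tendsto (fun x : σ → ℝ => ‖x - c‖ ^ (N + 1)) (𝓝 c) (𝓝 0) := by
    have h2 : Continuous fun x : σ → ℝ => ‖x - c‖ ^ (N + 1) := by fun_prop
    have h3 := h2.tendsto c
    simpa using h3
  have h2 : Tendsto (fun x => f x - eval x P) (𝓝 c) (𝓝 0) := IsBigO.trans_tendsto h h1
  have h3 := h2.add ((MvPolynomial.continuous_eval P).tendsto c)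
  rw [zero_add] at h3
  refine h3.congr fun x => ?_
  ring

/-- the increment is of order one -/
theorem Apx.sub_bigO {f : (σ → ℝ) → ℝ} {P : MvPolynomial σ ℝ} (h : Apx N c f P) :
    (fun x => f x - eval c P) =O[𝓝 c] fun x => ‖x - c‖ := by
  have h1 : (fun x : σ → ℝ => ‖x - c‖ ^ (N + 1)) =O[𝓝 c] fun x => ‖x - c‖ := by
    have h2 : (fun x : σ → ℝ => ‖x - c‖ ^ N * ‖x - c‖) =O[𝓝 c] fun x => (1 : ℝ) * ‖x - c‖ :=
      (norm_pow_bdd N).mul (isBigO_refl _ _)
    simpa only [one_mul, ← pow_succ] using h2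
  have h3 : (fun x => eval x P - eval c P) =O[𝓝 c] fun x => x - c :=
    (eval_diff P c).isBigO_sub
  have h4 := (IsBigO.trans h h1).add h3.norm_right
  refine h4.congr_left fun x => ?_
  ring

/-- a polynomial of functions with approximations -/
theorem Apx.poly_comp {w : ℕ} {g : Fin w → (σ → ℝ) → ℝ} {P : Fin w → MvPolynomial σ ℝ}
    (h : ∀ l, Apx N c (g l) (P l)) (H : MvPolynomial (Fin w) ℝ) :
    Apx N c (fun x => eval (fun l => g l x) H) (aeval P H) := by
  induction H using MvPolynomial.induction_on with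
  | C a =>
    have := Apx.poly (N := N) (c := c) (C a : MvPolynomial σ ℝ)
    simpa using this
  | add p q hp hq => simpa using hp.add hq
  | mul_X p l hp => simpa using hp.mul (h l)

/-- composition with a gate -/
theorem Apx.comp {w : ℕ} {g : Fin w → (σ → ℝ) → ℝ} {P : Fin w → MvPolynomial σ ℝ}
    (hg : ∀ l, Apx N c (g l) (P l)) {h : (Fin w → ℝ) → ℝ} {H : MvPolynomial (Fin w) ℝ}
    (hh : Apx N (fun l => eval c (P l)) h H) :
    Apx N c (fun x => h fun l => g l x) (aeval P H) := by
  have h1 : Tendsto (fun x => fun l => g l x) (𝓝 c) (𝓝 fun l => eval c (P l)) :=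
    tendsto_pi_nhds.2 fun l => (hg l).tendsto
  have h2 := IsBigO.comp_tendsto hh h1
  have h3 : (fun x => (fun l => g l x) - fun l => eval c (P l)) =O[𝓝 c] fun x => ‖x - c‖ := by
    refine isBigO_pi.2 fun l => ?_
    exact (hg l).sub_bigO
  have h4 : (fun x => h (fun l => g l x) - eval (fun l => g l x) H) =O[𝓝 c]
      fun x => ‖x - c‖ ^ (N + 1) := by
    refine h2.trans ?_
    exact (h3.norm_left.pow (N + 1))
  refine (h4.add (Apx.poly_comp hg H)).congr_left fun x => ?_
  ring

end Apx

end Pool.SM
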