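import Pool.Agent.SM.Defs

/-!
# Row C: Baire category argument
-/

set_option autoImplicit false

namespace Pool.SM

open MvPolynomial Filter Topology Asymptotics

theorem smCls_continuous {σ : Type} [Fintype σ] {m w0 w S : ℕ} (k : ℕ) {f : (σ → ℝ) → ℝ}
    (hf : f ∈ SmCls m w0 w S k) : Continuous f := by
  induction k generalizing f with
  | zero =>
    obtain ⟨L, h, -, hh, rfl⟩ := hf
    exact (ContDiff.continuous hh).comp (continuous_pi fun i => MvPolynomial.continuous_eval _)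
  | succ k ih =>
    obtain ⟨F, h, hF, hh, rfl⟩ := hf
    refine (ContDiff.continuous hh).comp (continuous_pi fun l => ?_)
    exact continuous_finsetSum _ fun i _ => continuous_finsetProd _ fun j _ => ih (hF l i j)

theorem psCls_countable {σ : Type} [Fintype σ] {m w0 w S : ℕ} (k : ℕ) {f : (σ → ℝ) → ℝ}
    (hf : f ∈ PsCls m w0 w S k) :
    ∃ g : ℕ → (σ → ℝ) → ℝ, (∀ s, g s ∈ SmCls m w0 w S k) ∧ ∀ x, ∃ s, f x = g s x := by
  induction k generalizing f with
  | zero =>
    obtain ⟨L, h, hL, ⟨g, hg, hgh⟩, rfl⟩ := hf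
    refine ⟨fun s x => g s fun i => eval x (L i), fun s => ⟨L, g s, hL, hg s, rfl⟩, fun x => ?_⟩
    exact hgh _
  | succ k ih =>
    obtain ⟨F, h, hF, ⟨g, hg, hgh⟩, rfl⟩ := hf
    choose G hG hGF using fun l i j => ih (hF l i j)
    obtain ⟨e, he⟩ := exists_surjective_nat (ℕ × (Fin w → Fin S → Fin S → ℕ))
    refine ⟨fun s x => g (e s).1 fun l => ∑ i, ∏ j, G l i j ((e s).2 l i j) x, fun s => ?_,
      fun x => ?_⟩
    · exact ⟨fun l i j => G l i j ((e s).2 l i j), g (e s).1, fun l i j => hG l i j _, hg _, rfl⟩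
    · choose c hc using fun l i j => hGF l i j x
      obtain ⟨a, ha⟩ := hgh fun l => ∑ i, ∏ j, F l i j x
      obtain ⟨s, hs⟩ := he (a, c)
      refine ⟨s, ?_⟩
      show h (fun l => ∑ i, ∏ j, F l i j x) =
        g (e s).1 (fun l => ∑ i, ∏ j, G l i j ((e s).2 l i j) x)
      rw [ha, hs]
      simp only [← hc]

/-- **Row C** -/
theorem baire {σ : Type} [Fintype σ] {m w0 w S k T : ℕ} (U : Set (σ → ℝ)) (hU : ¬ IsMeagre U)
    (g : (σ → ℝ) → ℝ) (hg : Continuous g) (f : Fin T → Fin S → (σ → ℝ) → ℝ)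
    (hf : ∀ i j, f i j ∈ PsCls m w0 w S k) (h : ∀ x ∈ U, ∑ i, ∏ j, f i j x = g x) :
    ∃ (f' : Fin T → Fin S → (σ → ℝ) → ℝ) (V : Set (σ → ℝ)), (∀ i j, f' i j ∈ SmCls m w0 w S k) ∧
      IsOpen V ∧ V.Nonempty ∧ ∀ x ∈ V, ∑ i, ∏ j, f' i j x = g x := by
  choose G hG hGf using fun i j => psCls_countable k (hf i j)
  by_contra hcon
  refine hU ?_
  have hclosed : ∀ s : Fin T → Fin S → ℕ, IsClosed {x | ∑ i, ∏ j, G i j (s i j) x = g x} := by
    intro s
    refine isClosed_eq ?_ hg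
    exact continuous_finsetSum _ fun i _ => continuous_finsetProd _ fun j _ =>
      smCls_continuous k (hG i j _)
  have hm : IsMeagre (⋃ s : Fin T → Fin S → ℕ, {x | ∑ i, ∏ j, G i j (s i j) x = g x}) := by
    refine isMeagre_iUnion fun s => IsNowhereDense.isMeagre ?_
    rw [(hclosed s).isNowhereDense_iff]
    by_contra hne
    exact hcon ⟨fun i j => G i j (s i j), interior {x | ∑ i, ∏ j, G i j (s i j) x = g x},
      fun i j => hG i j _, isOpen_interior, Set.nonempty_iff_ne_empty.2 hne,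
      fun x hx => by
        have hx' : x ∈ {x | ∑ i, ∏ j, G i j (s i j) x = g x} := interior_subset hx
        exact hx'⟩
  refine hm.mono fun x hx => ?_
  choose s hs using fun i j => hGf i j x
  refine Set.mem_iUnion.2 ⟨s, ?_⟩
  show ∑ i, ∏ j, G i j (s i j) x = g x
  rw [← h x hx]
  simp only [← hs]

end Pool.SM
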