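import Mathlib

/-!
# Superpositions of smooth functions: definitions

Gates are arbitrary real functions of `w` variables which are equal, at each point, to one of
countably many functions of class `C ^ m`.
-/

set_option autoImplicit false

namespace Pool.SM

open MvPolynomial Filter Topology Asymptotics

/-- at each point `h` is equal to one of countably many functions of class `C ^ m` -/
def PS (m : ℕ) {w : ℕ} (h : (Fin w → ℝ) → ℝ) : Prop :=
  ∃ g : ℕ → (Fin w → ℝ) → ℝ, (∀ s, ContDiff ℝ m (g s)) ∧ ∀ y, ∃ s, h y = g s y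

/-- superpositions with gates having the property `H` -/
def GCls {σ : Type} (H : ∀ {w : ℕ}, ((Fin w → ℝ) → ℝ) → Prop) (w0 w S : ℕ) :
    ℕ → Set ((σ → ℝ) → ℝ)
  | 0 => {f | ∃ (L : Fin w0 → MvPolynomial σ ℝ) (h : (Fin w0 → ℝ) → ℝ),
      (∀ i, (L i).totalDegree ≤ 1) ∧ H h ∧ f = fun x => h fun i => eval x (L i)}
  | k + 1 => {f | ∃ (F : Fin w → Fin S → Fin S → (σ → ℝ) → ℝ) (h : (Fin w → ℝ) → ℝ),
      (∀ l i j, F l i j ∈ GCls H w0 w S k) ∧ H h ∧ f = fun x => h fun l => ∑ i, ∏ j, F l i j x}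

/-- superpositions of smooth functions -/
def SmCls {σ : Type} (m w0 w S k : ℕ) : Set ((σ → ℝ) → ℝ) :=
  GCls (fun h => ContDiff ℝ m h) w0 w S k

/-- superpositions of piecewise smooth functions -/
def PsCls {σ : Type} (m w0 w S k : ℕ) : Set ((σ → ℝ) → ℝ) :=
  GCls (fun h => PS m h) w0 w S k

/-- `f` is equal to the polynomial `P` up to terms of order greater than `N` at `c` -/
def Apx {σ : Type} [Fintype σ] (N : ℕ) (c : σ → ℝ) (f : (σ → ℝ) → ℝ) (P : MvPolynomial σ ℝ) :
    Prop :=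
  (fun x => f x - eval x P) =O[𝓝 c] fun x => ‖x - c‖ ^ (N + 1)

end Pool.SM
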