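import Pool.Agent.SM.Defs
import Pool.Agent.CDep.Assembly

/-!
# Superpositions of smooth functions: terms of high order do not contribute

A polynomial which is `O(‖x - c‖ ^ (N' + 1))` at `c` has no coefficient of order at most `N'` in
the expansion at `c`, so the substitution `PhiW` kills all its coefficients of total degree
at most `N'`.
-/

set_option autoImplicit false

namespace Pool.SM

open MvPolynomial Filter Topology Asymptotics Finset
open Pool.CDep Pool.Agent.Helper87.D3 Pool.Agent.Helper41.CD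

/-- a real polynomial in one variable which is `O(|t| ^ (n + 1))` has no terms of degree at
most `n` -/
theorem coeff_eq_zero_of_isBigO (G : Polynomial ℝ) (n : ℕ)
    (h : (fun t : ℝ => G.eval t) =O[𝓝 0] fun t : ℝ => |t| ^ (n + 1)) :
    ∀ k, k ≤ n → G.coeff k = 0 := by
  intro k
  induction k using Nat.strong_induction_on with
  | _ k ih =>
    intro hk
    have hdiv : Polynomial.X ^ k ∣ G := by
      rw [Polynomial.X_pow_dvd_iff]
      intro d hd
      exact ih d hd (by omega)
    obtain ⟨G1, hG1⟩ := hdiv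
    have e1 : G.coeff k = G1.eval 0 := by
      rw [hG1, ← Polynomial.coeff_zero_eq_eval_zero]
      have := Polynomial.coeff_X_pow_mul G1 k 0
      rwa [zero_add] at this
    rw [e1]
    have h1 : Tendsto (fun t => G1.eval t) (𝓝[≠] (0 : ℝ)) (𝓝 (G1.eval 0)) :=
      (G1.continuous.continuousAt (x := (0 : ℝ))).mono_left nhdsWithin_le_nhds
    have h2 : (fun t => G1.eval t) =O[𝓝[≠] (0 : ℝ)] fun t : ℝ => |t| ^ (n + 1 - k) := by
      obtain ⟨C, hC⟩ := h.bound
      refine IsBigO.of_bound C ?_
      have h3 : ∀ᶠ t in 𝓝[≠] (0 : ℝ), ‖G.eval t‖ ≤ C * ‖|t| ^ (n + 1)‖ :=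
        hC.filter_mono nhdsWithin_le_nhds
      filter_upwards [h3, self_mem_nhdsWithin] with t ht ht0
      have ht1 : t ≠ 0 := ht0
      have ht2 : 0 < |t| ^ k := pow_pos (abs_pos.2 ht1) k
      rw [hG1, Polynomial.eval_mul, Polynomial.eval_pow, Polynomial.eval_X, norm_mul, norm_pow,
        Real.norm_eq_abs] at ht
      have h4 : ‖|t| ^ (n + 1)‖ = |t| ^ k * ‖|t| ^ (n + 1 - k)‖ := by
        rw [norm_pow, norm_pow, Real.norm_eq_abs, abs_abs, ← pow_add]
        congr 1
        omega
      rw [h4] at ht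
      have h5 : |t| ^ k * ‖G1.eval t‖ ≤ |t| ^ k * (C * ‖|t| ^ (n + 1 - k)‖) := by
        calc |t| ^ k * ‖G1.eval t‖ ≤ C * (|t| ^ k * ‖|t| ^ (n + 1 - k)‖) := ht
          _ = |t| ^ k * (C * ‖|t| ^ (n + 1 - k)‖) := by ring
      exact le_of_mul_le_mul_left h5 ht2
    have h6 : Tendsto (fun t : ℝ => |t| ^ (n + 1 - k)) (𝓝[≠] (0 : ℝ)) (𝓝 0) := by
      have h7 : Continuous fun t : ℝ => |t| ^ (n + 1 - k) := by fun_prop
      have h8 := (h7.tendsto (0 : ℝ)).mono_left (nhdsWithin_le_nhds (s := {(0 : ℝ)}ᶜ))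
      have h9 : |(0 : ℝ)| ^ (n + 1 - k) = 0 := by
        rw [abs_zero, zero_pow (by omega)]
      rwa [h9] at h8
    exact tendsto_nhds_unique h1 (h2.trans_tendsto h6)

section Line

variable {σ : Type}

/-- the restriction of a polynomial to the line of direction `v` through the origin -/
noncomputable def lineP (v : σ → ℝ) (q : MvPolynomial σ ℝ) : Polynomial ℝ :=
  MvPolynomial.aeval (fun i => Polynomial.C (v i) * Polynomial.X) q

theorem eval_lineP (v : σ → ℝ) (q : MvPolynomial σ ℝ) (t : ℝ) :
    (lineP v q).eval t = eval (fun i => v i * t) q := by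
  have h1 := MvPolynomial.comp_aeval_apply
    (fun i => Polynomial.C (v i) * (Polynomial.X : Polynomial ℝ)) (Polynomial.aeval t) q
  have h2 : (Polynomial.aeval t) (lineP v q) = (lineP v q).eval t := by
    rw [Polynomial.aeval_def, Polynomial.eval₂_eq_eval_map, Algebra.algebraMap_self,
      Polynomial.map_id]
  rw [← h2]
  unfold lineP
  rw [h1, MvPolynomial.aeval_eq_eval]
  congr 1
  simp

theorem lineP_monomial (v : σ → ℝ) (u : σ →₀ ℕ) (a : ℝ) :
    lineP v (MvPolynomial.monomial u a) =
      Polynomial.C (eval v (MvPolynomial.monomial u a)) * Polynomial.X ^ u.degree := by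
  unfold lineP
  rw [MvPolynomial.aeval_monomial, MvPolynomial.eval_monomial, Finsupp.prod, Finsupp.prod,
    Polynomial.C_mul, map_prod, mul_assoc]
  congr 1
  have h1 : ∀ i ∈ u.support, (Polynomial.C (v i) * (Polynomial.X : Polynomial ℝ)) ^ u i =
      Polynomial.C (v i ^ u i) * Polynomial.X ^ u i := by
    intro i _
    rw [mul_pow, Polynomial.C_pow]
  rw [Finset.prod_congr rfl h1, Finset.prod_mul_distrib]
  congr 1
  rw [Finset.prod_pow_eq_pow_sum]
  rfl

theorem coeff_lineP (v : σ → ℝ) (q : MvPolynomial σ ℝ) (k : ℕ) :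
    (lineP v q).coeff k = eval v (homogeneousComponent k q) := by
  induction q using MvPolynomial.induction_on' with
  | monomial u a =>
    rw [lineP_monomial, Polynomial.coeff_C_mul, Polynomial.coeff_X_pow,
      homogeneousComponent_of_mem (m := k) (isHomogeneous_monomial a (rfl : u.degree = u.degree))]
    by_cases h : k = u.degree
    · rw [if_pos h, if_pos h, mul_one]
    · rw [if_neg h, if_neg h, mul_zero, map_zero]
  | add p q hp hq =>
    have h1 : lineP v (p + q) = lineP v p + lineP v q := by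
      unfold lineP
      rw [map_add]
    rw [h1, Polynomial.coeff_add, hp, hq, map_add, map_add]

end Line

section Fin

variable {σ : Type} [Fintype σ]

/-- a polynomial which is `O(‖x‖ ^ (n + 1))` at the origin has no terms of degree at most `n` -/
theorem coeff_eq_zero_of_isBigO_mv (q : MvPolynomial σ ℝ) (n : ℕ)
    (hq : (fun x : σ → ℝ => eval x q) =O[𝓝 0] fun x => ‖x‖ ^ (n + 1)) (u : σ →₀ ℕ)
    (hu : u.degree ≤ n) : q.coeff u = 0 := by
  have h1 : homogeneousComponent u.degree q = 0 := by
    apply MvPolynomial.funext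
    intro v
    rw [← coeff_lineP, map_zero]
    apply coeff_eq_zero_of_isBigO _ n _ _ hu
    have hc : Tendsto (fun t : ℝ => fun i => v i * t) (𝓝 0) (𝓝 (0 : σ → ℝ)) := by
      have h2 : Continuous fun t : ℝ => fun i => v i * t := by fun_prop
      have h3 := h2.tendsto (0 : ℝ)
      have h4 : (fun i => v i * (0 : ℝ)) = 0 := by
        funext i
        simp
      rwa [h4] at h3
    have h5 := hq.comp_tendsto hc
    have h6 : ((fun x : σ → ℝ => eval x q) ∘ fun t : ℝ => fun i => v i * t) =
        fun t => (lineP v q).eval t := by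
      funext t
      rw [eval_lineP]
      rfl
    rw [h6] at h5
    refine h5.trans ?_
    refine IsBigO.of_bound (‖v‖ ^ (n + 1)) (Filter.Eventually.of_forall fun t => ?_)
    have h7 : ‖(fun i => v i * t)‖ = ‖v‖ * |t| := by
      have h8 : (fun i => v i * t) = t • v := by
        funext i
        rw [Pi.smul_apply, smul_eq_mul, mul_comm]
      rw [h8, norm_smul, Real.norm_eq_abs, mul_comm]
    simp only [Function.comp]
    rw [h7, mul_pow, norm_mul, norm_pow, norm_pow, norm_norm]
  have h2 : (homogeneousComponent u.degree q).coeff u = (0 : MvPolynomial σ ℝ).coeff u := by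
    rw [h1]
  rw [coeff_homogeneousComponent, if_pos rfl, coeff_zero] at h2
  exact h2

end Fin

/-- no terms of total degree less than `k` -/
def Ord {B : Type} [CommRing B] (k : ℕ) (F : Ser B) : Prop :=
  ∀ r E, r + E < k → cf r E F = 0

section Ords

variable {B : Type} [CommRing B]

theorem Ord.zero_left (F : Ser B) : Ord 0 F := fun _ _ h => absurd h (by omega)

theorem Ord.mul {k l : ℕ} {F G : Ser B} (hF : Ord k F) (hG : Ord l G) :
    Ord (k + l) (F * G) := by
  intro r E h
  rw [cf_mul]
  refine Finset.sum_eq_zero fun i hi => Finset.sum_eq_zero fun j hj => ?_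
  have hi' : i.1 + i.2 = r := Finset.HasAntidiagonal.mem_antidiagonal.1 hi
  have hj' : j.1 + j.2 = E := Finset.HasAntidiagonal.mem_antidiagonal.1 hj
  by_cases h1 : i.1 + j.1 < k
  · rw [hF _ _ h1, zero_mul]
  · rw [hG _ _ (by omega), mul_zero]

theorem Ord.pow {F : Ser B} (hF : Ord 1 F) (n : ℕ) : Ord n (F ^ n) := by
  induction n with
  | zero => exact Ord.zero_left _
  | succ n ih =>
    rw [pow_succ]
    exact ih.mul hF

theorem Ord.prod {ι : Type} (s : Finset ι) (n : ι → ℕ) (F : ι → Ser B)
    (hF : ∀ i ∈ s, Ord (n i) (F i)) : Ord (∑ i ∈ s, n i) (∏ i ∈ s, F i) := by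
  classical
  induction s using Finset.induction_on with
  | empty => exact Ord.zero_left _
  | insert a t ha ih =>
    rw [Finset.sum_insert ha, Finset.prod_insert ha]
    exact (hF a (Finset.mem_insert_self _ _)).mul
      (ih fun i hi => hF i (Finset.mem_insert_of_mem hi))

theorem Ord.mono {k l : ℕ} {F : Ser B} (hF : Ord k F) (h : l ≤ k) : Ord l F :=
  fun r E h1 => hF r E (by omega)

theorem Ord.sum {ι : Type} {k : ℕ} (s : Finset ι) (F : ι → Ser B)
    (hF : ∀ i ∈ s, Ord k (F i)) : Ord k (∑ i ∈ s, F i) := by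
  intro r E h
  rw [cf_sum]
  exact Finset.sum_eq_zero fun i hi => hF i hi r E h

theorem Ord.lin (x y : B) : Ord 1 (lam B * cst x + mu B * cst y) := by
  intro r E h
  have h1 : r = 0 := by omega
  have h2 : E = 0 := by omega
  subst h1
  subst h2
  rw [cf_add, cf_lam_mul, cf_mu_mul]
  simp

theorem Ord.algebraMap_mul [Algebra ℝ B] {k : ℕ} (a : ℝ) {F : Ser B} (hF : Ord k F) :
    Ord k (algebraMap ℝ (Ser B) a * F) := by
  have h1 := (Ord.zero_left (algebraMap ℝ (Ser B) a)).mul hF
  rwa [zero_add] at h1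

end Ords

/-- terms of order greater than `N'` at `c` do not contribute to the coefficients of total
degree at most `N'` -/
theorem cf_eq_zero_of_isBigO {σ : Type} [Fintype σ] {N' N h : ℕ} (c : σ → ℝ)
    (a b : σ → Wo N h → ℝ) (q : MvPolynomial σ ℝ)
    (hq : (fun x => eval x q) =O[𝓝 c] fun x => ‖x - c‖ ^ (N' + 1)) (r E : ℕ)
    (hrE : r + E ≤ N') : cf r E (PhiW c a b q) = 0 := by
  -- translate to the origin
  set q' : MvPolynomial σ ℝ := MvPolynomial.aeval (fun i => X i + C (c i)) q with hq'
  have e0 : ∀ x, eval x q' = eval (x + c) q := by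
    intro x
    have h1 := MvPolynomial.comp_aeval_apply
      (fun i => (X i + C (c i) : MvPolynomial σ ℝ)) (MvPolynomial.aeval x) q
    rw [hq', ← MvPolynomial.aeval_eq_eval, ← MvPolynomial.aeval_eq_eval, h1]
    congr 2
    funext i
    rw [map_add, MvPolynomial.aeval_X, MvPolynomial.algHom_C]
    rfl
  have e1 : ∀ u : σ →₀ ℕ, u.degree ≤ N' → q'.coeff u = 0 := by
    apply coeff_eq_zero_of_isBigO_mv q' N'
    have h2 : Tendsto (fun x : σ → ℝ => x + c) (𝓝 0) (𝓝 c) := by
      have h3 : Continuous fun x : σ → ℝ => x + c := by fun_prop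
      have h4 := h3.tendsto (0 : σ → ℝ)
      rwa [zero_add] at h4
    have h5 := hq.comp_tendsto h2
    have h6 : ((fun x : σ → ℝ => eval x q) ∘ fun x => x + c) = fun x => eval x q' := by
      funext x
      rw [e0]
      rfl
    have h7 : ((fun x : σ → ℝ => ‖x - c‖ ^ (N' + 1)) ∘ fun x => x + c) =
        fun x => ‖x‖ ^ (N' + 1) := by
      funext x
      simp
    rwa [h6, h7] at h5
  -- the substitution factors through the translation
  have e2 : PhiW c a b q = MvPolynomial.aeval (fun i =>
      lam (Fw ℝ N h) * cst (fun p : Wo N h × Wo N h => a i p.1) +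
      mu (Fw ℝ N h) * cst (fun p : Wo N h × Wo N h => b i p.2)) q' := by
    rw [hq', MvPolynomial.comp_aeval_apply]
    unfold PhiW
    congr 2
    funext i
    rw [map_add, MvPolynomial.aeval_X, MvPolynomial.algHom_C,
      Pool.Agent.Helper59.CD.algebraMap_ser]
    ring
  -- expand
  rw [e2, MvPolynomial.aeval_def, MvPolynomial.eval₂_eq]
  have e3 : Ord (N' + 1) (∑ d ∈ q'.support, algebraMap ℝ (Ser (Fw ℝ N h)) (q'.coeff d) *
      ∏ i ∈ d.support, (lam (Fw ℝ N h) * cst (fun p : Wo N h × Wo N h => a i p.1) +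
      mu (Fw ℝ N h) * cst (fun p : Wo N h × Wo N h => b i p.2)) ^ d i) := by
    apply Ord.sum
    intro d hd
    have h1 : N' + 1 ≤ d.degree := by
      by_contra h2
      exact (MvPolynomial.mem_support_iff.1 hd) (e1 d (by omega))
    apply Ord.algebraMap_mul
    have h2 := Ord.prod d.support (fun i => d i) (fun i =>
      (lam (Fw ℝ N h) * cst (fun p : Wo N h × Wo N h => a i p.1) +
      mu (Fw ℝ N h) * cst (fun p : Wo N h × Wo N h => b i p.2)) ^ d i)
      (fun i _ => (Ord.lin _ _).pow _)
    exact h2.mono h1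
  exact e3 r E (by omega)

end Pool.SM
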