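import Mathlib
import Pool.Agent.SM.Defs

/-!
# Row A: Taylor polynomials
-/

set_option autoImplicit false

namespace Pool.SM

open MvPolynomial Filter Topology Asymptotics

/-- the homogeneous part of degree `k` of the Taylor polynomial, times `k!` -/
noncomputable def tayQ {w : ℕ} (h : (Fin w → ℝ) → ℝ) (y0 : Fin w → ℝ) (k : ℕ) :
    MvPolynomial (Fin w) ℝ :=
  ∑ f : Fin k → Fin w, C (iteratedFDeriv ℝ k h y0 fun j => Pi.single (f j) 1) *
    ∏ j, (X (f j) - C (y0 (f j)))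

theorem eval_tayQ {w : ℕ} (h : (Fin w → ℝ) → ℝ) (y0 x : Fin w → ℝ) (k : ℕ) :
    eval x (tayQ h y0 k) = iteratedFDeriv ℝ k h y0 fun _ => x - y0 := by
  have h1 : (fun _ : Fin k => x - y0) = fun _ : Fin k => ∑ i : Fin w,
      (x i - y0 i) • (Pi.single i (1 : ℝ) : Fin w → ℝ) := by
    funext _
    funext i
    simp [Finset.sum_apply, Pi.single_apply]
  rw [h1, ContinuousMultilinearMap.map_sum]
  unfold tayQ
  rw [map_sum]
  refine Finset.sum_congr rfl fun f _ => ?_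
  rw [ContinuousMultilinearMap.map_smul_univ, map_mul, eval_C, map_prod, smul_eq_mul, mul_comm]
  simp

/-- ROW A -/
theorem taylor_poly {w N m : ℕ} (hm : N + 1 ≤ m) (h : (Fin w → ℝ) → ℝ) (hh : ContDiff ℝ m h)
    (y0 : Fin w → ℝ) : ∃ H : MvPolynomial (Fin w) ℝ, Apx N y0 h H := by
  have hh' : ContDiff ℝ (((N + 1 : ℕ) : WithTop ℕ∞)) h := hh.of_le (by exact_mod_cast hm)
  refine ⟨∑ k ∈ Finset.range (N + 1), C ((k.factorial : ℝ)⁻¹) * tayQ h y0 k, ?_⟩
  unfold Apx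
  set D := iteratedFDeriv ℝ (N + 1) h with hD
  have hcont : Continuous D := hh'.continuous_iteratedFDeriv le_rfl
  have hbd : ∀ᶠ z in 𝓝 y0, ‖D z‖ ≤ ‖D y0‖ + 1 := by
    have h1 : Tendsto (fun z => ‖D z‖) (𝓝 y0) (𝓝 ‖D y0‖) := (hcont.norm).continuousAt
    exact (h1.eventually (gt_mem_nhds (show ‖D y0‖ < ‖D y0‖ + 1 by linarith))).mono
      fun z hz => hz.le
  obtain ⟨δ, hδ, hball⟩ := Metric.eventually_nhds_iff.1 hbd
  refine IsBigO.of_bound ((N.factorial : ℝ)⁻¹ * (‖D y0‖ + 1)) ?_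
  refine Metric.eventually_nhds_iff.2 ⟨δ, hδ, fun x hx => ?_⟩
  have h2 := map_add_eq_sum_add_integral_iteratedFDeriv (f := h) (x := y0) (y := x - y0) (n := N)
    fun t _ => by
      have := hh'.contDiffAt (x := y0 + t • (x - y0))
      exact_mod_cast this
  rw [add_sub_cancel] at h2
  have h3 : h x - eval x (∑ k ∈ Finset.range (N + 1), C ((k.factorial : ℝ)⁻¹) * tayQ h y0 k) =
      (N.factorial : ℝ)⁻¹ • ∫ t in (0:ℝ)..1, (1 - t) ^ N • D (y0 + t • (x - y0))
        (fun _ => x - y0) := by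
    rw [map_sum]
    simp only [map_mul, eval_C, eval_tayQ]
    rw [h2]
    simp only [smul_eq_mul]
    ring
  rw [h3, norm_smul, norm_pow, norm_norm, mul_assoc]
  have h4 : ‖(N.factorial : ℝ)⁻¹‖ = (N.factorial : ℝ)⁻¹ := by
    rw [Real.norm_eq_abs, abs_of_nonneg (by positivity)]
  rw [h4]
  refine mul_le_mul_of_nonneg_left ?_ (by positivity)
  have h5 := intervalIntegral.norm_integral_le_of_norm_le_const (a := (0:ℝ)) (b := 1)
    (f := fun t : ℝ => (1 - t) ^ N • D (y0 + t • (x - y0)) (fun _ => x - y0))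
    (C := (‖D y0‖ + 1) * ‖x - y0‖ ^ (N + 1)) ?_
  · rw [sub_zero, abs_one, mul_one] at h5
    exact h5
  · intro t ht
    rw [Set.uIoc_of_le zero_le_one] at ht
    have h6 : ‖D (y0 + t • (x - y0))‖ ≤ ‖D y0‖ + 1 := by
      refine hball ?_
      rw [dist_eq_norm, add_sub_cancel_left, norm_smul, Real.norm_eq_abs, abs_of_pos ht.1]
      rw [dist_eq_norm] at hx
      calc t * ‖x - y0‖ ≤ 1 * ‖x - y0‖ := mul_le_mul_of_nonneg_right ht.2 (norm_nonneg _)
        _ < δ := by rwa [one_mul]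
    have h7 : ‖D (y0 + t • (x - y0)) (fun _ => x - y0)‖ ≤
        (‖D y0‖ + 1) * ‖x - y0‖ ^ (N + 1) := by
      refine (ContinuousMultilinearMap.le_opNorm _ _).trans ?_
      rw [Finset.prod_const, Finset.card_univ, Fintype.card_fin]
      exact mul_le_mul_of_nonneg_right h6 (by positivity)
    rw [norm_smul]
    have h8 : ‖(1 - t) ^ N‖ ≤ 1 := by
      rw [norm_pow, Real.norm_eq_abs, abs_of_nonneg (by linarith [ht.2])]
      exact pow_le_one₀ (by linarith [ht.2]) (by linarith [ht.1])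
    calc ‖(1 - t) ^ N‖ * ‖D (y0 + t • (x - y0)) (fun _ => x - y0)‖ ≤
        1 * ‖D (y0 + t • (x - y0)) (fun _ => x - y0)‖ :=
          mul_le_mul_of_nonneg_right h8 (norm_nonneg _)
      _ ≤ _ := by rw [one_mul]; exact h7

end Pool.SM
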